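import Pool.Agent.Lib.MP_e6fef2_lc.H27.Names

/-!
# Dense subsets of `P` with names of size `< κ` are dense in almost all `P_c`
-/

universe u v

open Set Cardinal

namespace Pool.Agent.Lib.MP_e6fef2_lc.H27

section card

variable {κ : Cardinal.{u}} {I : Type u} [LinearOrder I] (hI : Idx κ I)
include hI

theorem mk_W_lt : #W.{u} < κ := by
  have h1 : #W.{u} = Cardinal.aleph 1 := Cardinal.mk_ord_toType _
  rw [h1]
  exact Cardinal.aleph_one_le_continuum.trans_lt (hI.lim _ hI.unc)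

theorem mk_PC_lt : #PC.{u} < κ := by
  have hW := mk_W_lt hI
  have hW0 : ℵ₀ ≤ #W.{u} := by
    rw [Cardinal.mk_ord_toType]
    exact Cardinal.aleph0_le_aleph 1
  have : Infinite W.{u} := Cardinal.infinite_iff.2 hW0
  let φ : PC.{u} → W.{u} × (W.{u} → Bool) × Finset W.{u} × Finset (W.{u} × W.{u}) :=
    fun p => (p.d, p.t, p.e, p.I)
  have hφ : Function.Injective φ := by
    intro p q h
    simp only [φ, Prod.mk.injEq] at h
    exact PC.ext h.1 h.2.1 h.2.2.1 h.2.2.2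
  refine (Cardinal.mk_le_of_injective hφ).trans_lt ?_
  simp only [Cardinal.mk_prod, Cardinal.lift_id, Cardinal.mk_finset_of_infinite]
  have h1 : #(W.{u} → Bool) < κ := by
    have : #(W.{u} → Bool) = 2 ^ #W.{u} := by simp
    rw [this]
    exact hI.lim _ hW
  have h0 : ℵ₀ ≤ κ := hI.unc.le
  have h2 : #W.{u} * #W.{u} < κ := Cardinal.mul_lt_of_lt h0 hW hW
  exact Cardinal.mul_lt_of_lt h0 hW (Cardinal.mul_lt_of_lt h0 h1 (Cardinal.mul_lt_of_lt h0 hW h2))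

theorem mk_iUnion_lt {T : Type u} (hT : #T < κ) (f : T → Set I) (hf : ∀ t, #(f t) < κ) :
    #(⋃ t, f t : Set I) < κ :=
  (Cardinal.mk_iUnion_le_sum_mk).trans_lt (Cardinal.sum_lt_of_isRegular hI.reg hT hf)

theorem mk_antichain_lt {S : Type u} [Preorder S] (hK : KC I S) (A : Set S)
    (hA : ∀ p ∈ A, ∀ q ∈ A, p ≠ q → ¬ ∃ r, r ≤ p ∧ r ≤ q) : #A < κ := by
  by_contra hc
  rw [not_lt, ← hI.card, Cardinal.le_def] at hc
  obtain ⟨g⟩ := hc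
  obtain ⟨i, j, hij, t, h1, h2⟩ := hK fun i => (g i).1
  exact hA _ (g i).2 _ (g j).2 (fun h => hij (g.injective (Subtype.ext h))) ⟨t, h1, h2⟩

theorem exists_not_mem {C : Set I} (hC : #C < κ) {a : Set I} (ha : a.Countable) :
    ∃ c, c ∉ C ∧ c ∉ a := by
  by_contra hcon
  push Not at hcon
  have h1 : (univ : Set I) ⊆ C ∪ a := fun c _ => by
    by_cases h : c ∈ C
    · exact Or.inl h
    · exact Or.inr (hcon c h)
  have h2 : #I ≤ #C + #a := by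
    rw [← Cardinal.mk_univ]
    exact (Cardinal.mk_le_mk_of_subset h1).trans (Cardinal.mk_union_le _ _)
  rw [hI.card] at h2
  have h3 : #a < κ := (Cardinal.le_aleph0_iff_set_countable.2 ha).trans_lt hI.unc
  exact absurd h2 (not_le.2 (Cardinal.add_lt_of_lt hI.unc.le hC h3))

end card

theorem _root_.Pool.Agent.Lib.MP_e6fef2_lc.IsSub.inf {B : Type u} [CompleteBooleanAlgebra B] {Z : Set B} (hZ : IsSub Z) {a b : B}
    (ha : a ∈ Z) (hb : b ∈ Z) : a ⊓ b ∈ Z := by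
  have h1 : a ⊓ b = (aᶜ ⊔ bᶜ)ᶜ := by rw [compl_sup, compl_compl, compl_compl]
  rw [h1]
  refine hZ.compl _ ?_
  rw [← sSup_pair]
  refine hZ.sSup _ ?_
  rintro x (rfl | rfl)
  · exact hZ.compl _ ha
  · exact hZ.compl _ hb

theorem _root_.Pool.Agent.Lib.MP_e6fef2_lc.IsSub.iSup {B : Type u} [CompleteBooleanAlgebra B] {Z : Set B} (hZ : IsSub Z)
    {T : Sort*} {f : T → B} (hf : ∀ t, f t ∈ Z) : (⨆ t, f t) ∈ Z :=
  hZ.sSup _ (by rintro _ ⟨t, rfl⟩; exact hf t)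

/-- CLA. -/
theorem claimA (κ : Cardinal.{u}) (I : Type u) [LinearOrder I] (hI : Idx κ I)
    (hK : KC I (TC I)) {B : Type u} [CompleteBooleanAlgebra B] {e : TC I → B} (he : SE e)
    (Z M : Set B) (hZ : IsSub Z) (heZ : ∀ s, e s ∈ Z) (hMc : #M < κ)
    (hd : ∀ a ∈ Z, a ≠ ⊥ → ∃ s, ∃ m ∈ M, e s ⊓ m ≠ ⊥ ∧ e s ⊓ m ≤ a ∧ ∀ s' ≤ s, e s' ⊓ m ≠ ⊥)
    (hMZ : M ⊆ Z) (D : W.{u} → PC.{u} → B) (hDZ : ∀ ξ x, D ξ x ∈ Z)
    (hDle : ∀ ξ x, D ξ x ≤ pv e x) (G : B) (hG : G ∈ Z) (p : PC.{u})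
    (hdense : ∀ ξ, ∀ x ≤ p, G ⊓ pv e x ≤ ⨆ x', ⨆ _ : x' ≤ x, D ξ x') :
    ∃ C : Set I, #C < κ ∧ ∀ c ∉ C, ∀ ξ, ∀ x ≤ p,
      G ⊓ thv e c x.d x.t ≤ ⨆ x', ⨆ _ : x' ≤ x, D ξ x' ⊓ thv e c x'.d x'.t := by
  let U : M → M → PC.{u} → W.{u} → Set (TC I) := fun m m' x ξ =>
    {s | (∀ s' ≤ s, e s' ⊓ m'.1 ≠ ⊥) ∧ e s ⊓ m'.1 ≤ m.1 ⊓ D ξ x}
  choose A hA1 hA2 hA3 using fun (q : M × M × PC.{u} × W.{u}) =>
    Pool.Agent.Lib.MP_c5d73d_lc.F.H62.exists_max_antichain (U q.1 q.2.1 q.2.2.1 q.2.2.2)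
  let C : Set I := ⋃ q : M × M × PC.{u} × W.{u}, ⋃ a : A q, a.1.a
  have hC : #C < κ := by
    have h0 : ℵ₀ ≤ κ := hI.unc.le
    refine mk_iUnion_lt hI ?_ _ fun q => mk_iUnion_lt hI (mk_antichain_lt hI hK _ (hA2 q)) _
      fun a => (Cardinal.le_aleph0_iff_set_countable.2 a.1.a_ctbl).trans_lt hI.unc
    simp only [Cardinal.mk_prod, Cardinal.lift_id]
    exact Cardinal.mul_lt_of_lt h0 hMc (Cardinal.mul_lt_of_lt h0 hMc
      (Cardinal.mul_lt_of_lt h0 (mk_PC_lt hI) (mk_W_lt hI)))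
  have hthZ : ∀ c d u, thv e c d u ∈ Z := fun c d u => hZ.iSup fun s => heZ _
  refine ⟨C, hC, fun c hc ξ x hxp => ?_⟩
  by_contra hcon
  set R : B := ⨆ x', ⨆ _ : x' ≤ x, D ξ x' ⊓ thv e c x'.d x'.t with hR
  have hRZ : R ∈ Z := hZ.iSup fun x' => hZ.iSup fun _ => hZ.inf (hDZ _ _) (hthZ _ _ _)
  have hne : G ⊓ thv e c x.d x.t ⊓ Rᶜ ≠ ⊥ := by
    intro h
    apply hcon
    rw [← _root_.sdiff_eq, sdiff_eq_bot_iff] at h
    exact h
  obtain ⟨s, m, hm, h1, h2, h3⟩ := hd _ (hZ.inf (hZ.inf hG (hthZ c x.d x.t)) (hZ.compl _ hRZ)) hne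
  obtain ⟨s₁, hs₁, ⟨hc1, hd1, hf1⟩, h4⟩ := exists_th he h1 (h2.trans (inf_le_left.trans inf_le_right))
  -- the extension `x₁` of `x`
  let x₁ : PC.{u} :=
    { d := s₁.ht
      t := s₁.f c
      e := x.e
      I := x.I
      low := s₁.low _ le_rfl _ (s₁.f_mem c hc1)
      e_lt := fun n hn => (x.e_lt n hn).trans_le hd1
      e_t := fun n hn => by
        have h5 := x.e_t n hn
        rw [← hf1, cutb_of_lt (x.e_lt n hn)] at h5
        exact h5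
      avoid := x.avoid }
  have hx₁ : x₁ ≤ x := ⟨hd1, fun n hn => by
    change s₁.f c n = x.t n
    rw [← hf1, cutb_of_lt hn], Finset.Subset.refl _, Finset.Subset.refl _⟩
  have h5 : e s₁ ≤ pv e x₁ := le_ttv (s₁.f_mem c hc1)
  have h6 : ∃ x', x' ≤ x₁ ∧ e s₁ ⊓ m ⊓ D ξ x' ≠ ⊥ := by
    by_contra hno
    push Not at hno
    apply h4
    have hG1 : e s₁ ⊓ m ≤ G := (inf_le_inf_right _ (he.mono _ _ hs₁)).trans
      (h2.trans (inf_le_left.trans inf_le_left))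
    rw [← inf_eq_left.2 ((le_inf hG1 (inf_le_left.trans h5)).trans (hdense ξ x₁ (hx₁.trans hxp)) :
      e s₁ ⊓ m ≤ _), inf_iSup_eq]
    simp only [inf_iSup_eq]
    rw [iSup_eq_bot]
    intro x'
    rw [iSup_eq_bot]
    exact hno x'
  obtain ⟨x', hx', h7⟩ := h6
  obtain ⟨s₂, m', hm', h8, h9, h10⟩ := hd _
    (hZ.inf (hZ.inf (heZ s₁) (hMZ hm)) (hDZ ξ x')) h7
  have h11 : e s₂ ⊓ (e s₁ ⊓ m') ≠ ⊥ := by
    refine ne_bot_mono h8 ?_
    exact le_inf inf_le_left (le_inf (h9.trans (inf_le_left.trans inf_le_left)) inf_le_right)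
  obtain ⟨s₃, h12, h13, h14⟩ := he.exists_common h11
  have h15 : e s₃ ⊓ m' ≤ ttv e x'.d x'.t :=
    (inf_le_inf_right _ (he.mono _ _ h12)).trans (h9.trans (inf_le_right.trans (hDle ξ x')))
  obtain ⟨s₄, h16, h17, h18⟩ := exists_mem he h14 h15
  have hU : s₄ ∈ U ⟨m, hm⟩ ⟨m', hm'⟩ x' ξ := by
    refine ⟨fun s' hs' => h10 s' (hs'.trans (h16.trans h12)), ?_⟩
    refine (inf_le_inf_right _ (he.mono _ _ (h16.trans h12))).trans (h9.trans ?_)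
    exact inf_le_inf_right _ inf_le_right
  obtain ⟨a, ha, s₅, h19, h20⟩ := hA3 (⟨m, hm⟩, ⟨m', hm'⟩, x', ξ) s₄ hU
  have hu5 : x'.t ∈ s₅.T x'.d := mem_of_le h19 h17
  obtain ⟨v, hv, hvx⟩ := s₅.extn _ le_rfl _ (le_ht_of_mem _ hu5) _ hu5
  have h21 : s₅ ≤ s₁ := h19.trans (h16.trans h13)
  have hvs : cutb s₁.ht v = s₁.f c := by
    have h22 : cutb s₁.ht v = cutb s₁.ht x'.t := by
      rw [← hvx, cutb_cutb hx'.1]
    rw [h22]
    have h23 : cutb s₁.ht x'.t = cutb s₁.ht (s₁.f c) := by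
      rw [cutb_congr]
      intro n hn
      exact hx'.2.1 n hn
    rw [h23]
    exact cutb_eq_self (s₁.low _ le_rfl _ (s₁.f_mem c hc1))
  obtain ⟨t, ht1, ht2, ht3, ht4, ht5, ht6⟩ :=
    H77.kglue C s₁ s₅ (TC.LeR.of_le h21) c hc1 hc v hv hvs
  have haC : a.a ⊆ C := fun y hy =>
    mem_iUnion.2 ⟨(⟨m, hm⟩, ⟨m', hm'⟩, x', ξ), mem_iUnion.2 ⟨⟨a, ha⟩, hy⟩⟩
  have hta : t ≤ a := ht6 a haC h20
  have haU := hA1 _ ha
  have h24 : e t ⊓ m' ≠ ⊥ := haU.1 t hta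
  have h25 : e t ⊓ m' ≤ m ⊓ D ξ x' := (inf_le_inf_right _ (he.mono _ _ hta)).trans haU.2
  have h26 : e t ≤ thv e c x'.d x'.t := by
    refine le_thv ⟨?_, ?_, ?_⟩
    · rw [ht4]
      exact Or.inr hc1
    · rw [ht2]
      exact le_ht_of_mem _ hu5
    · rw [ht5]
      exact hvx
  have h27 : e t ⊓ m' ≤ R := by
    refine (le_inf (h25.trans inf_le_right) (inf_le_left.trans h26)).trans ?_
    exact le_iSup₂ (f := fun x' (_ : x' ≤ x) => D ξ x' ⊓ thv e c x'.d x'.t) x' (hx'.trans hx₁)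
  have h28 : e t ⊓ m' ≤ Rᶜ := by
    refine (le_inf (inf_le_left.trans (he.mono _ _ (ht1.trans hs₁))) (h25.trans inf_le_left)).trans ?_
    exact h2.trans inf_le_right
  exact h24 (le_bot_iff.1 ((le_inf h27 h28).trans (by rw [inf_compl_self])))

end Pool.Agent.Lib.MP_e6fef2_lc.H27
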