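import Pool.Agent.Lib.MP_e6fef2_lc.H27.SE
import Pool.Agent.Lib.MP_e6fef2_lc.H77.Glue

/-!
# The names of the generic tree and of its branches
-/

universe u v

open Set Cardinal

namespace Pool.Agent.Lib.MP_e6fef2_lc.H27

variable {I : Type u} {B : Type v} [CompleteBooleanAlgebra B] (e : TC I → B)

/-- The value of: `u` is a node of length `d` of the generic tree. -/
noncomputable def ttv (d : W.{u}) (u : W.{u} → Bool) : B := ⨆ s : {s : TC I // u ∈ s.T d}, e s.1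

/-- The value of `p ∈ P`. -/
noncomputable def pv (p : PC.{u}) : B := ttv e p.d p.t

/-- The value of: `u` is the restriction to `d` of the branch `c`. -/
noncomputable def thv (c : I) (d : W.{u}) (u : W.{u} → Bool) : B :=
  ⨆ s : {s : TC I // c ∈ s.a ∧ d ≤ s.ht ∧ cutb d (s.f c) = u}, e s.1

theorem le_ht_of_mem (s : TC I) {d : W.{u}} {u : W.{u} → Bool} (h : u ∈ s.T d) : d ≤ s.ht := by
  by_contra hc
  rw [s.out d (not_le.1 hc)] at h
  exact h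

theorem mem_of_le {s t : TC I} (h : s ≤ t) {d : W.{u}} {u : W.{u} → Bool} (hu : u ∈ t.T d) :
    u ∈ s.T d := by
  rw [TC.T_eq h (le_ht_of_mem t hu)]
  exact hu

theorem cutb_f_of_le {s t : TC I} (h : s ≤ t) {c : I} (hc : c ∈ t.a) {d : W.{u}} (hd : d ≤ t.ht) :
    cutb d (s.f c) = cutb d (t.f c) := by
  rw [cutb_congr]
  intro m hm
  exact TC.f_eq h hc (hm.trans_le hd)

theorem mem_th_of_le {s t : TC I} (h : s ≤ t) {c : I} {d : W.{u}} {u : W.{u} → Bool}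
    (ht : c ∈ t.a ∧ d ≤ t.ht ∧ cutb d (t.f c) = u) :
    c ∈ s.a ∧ d ≤ s.ht ∧ cutb d (s.f c) = u :=
  ⟨TC.a_sub h ht.1, ht.2.1.trans (TC.ht_le h), (cutb_f_of_le h ht.1 ht.2.1).trans ht.2.2⟩

variable {e}

theorem le_ttv {s : TC I} {d : W.{u}} {u : W.{u} → Bool} (h : u ∈ s.T d) : e s ≤ ttv e d u :=
  le_iSup (fun s : {s : TC I // u ∈ s.T d} => e s.1) ⟨s, h⟩

theorem le_thv {s : TC I} {c : I} {d : W.{u}} {u : W.{u} → Bool}
    (h : c ∈ s.a ∧ d ≤ s.ht ∧ cutb d (s.f c) = u) : e s ≤ thv e c d u :=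
  le_iSup (fun s : {s : TC I // c ∈ s.a ∧ d ≤ s.ht ∧ cutb d (s.f c) = u} => e s.1) ⟨s, h⟩

theorem thv_le_ttv (c : I) (d : W.{u}) (u : W.{u} → Bool) : thv e c d u ≤ ttv e d u := by
  refine iSup_le ?_
  rintro ⟨s, h1, h2, h3⟩
  exact le_ttv (h3 ▸ s.cut_f_mem h1 h2)

theorem thv_mono (c : I) {d d' : W.{u}} (h : d' ≤ d) (u : W.{u} → Bool) :
    thv e c d u ≤ thv e c d' (cutb d' u) := by
  refine iSup_le ?_
  rintro ⟨s, h1, h2, h3⟩
  exact le_thv ⟨h1, h.trans h2, by subst h3; exact (cutb_cutb h _).symm⟩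

theorem ttv_mono {d d' : W.{u}} (h : d' ≤ d) (u : W.{u} → Bool) :
    ttv e d u ≤ ttv e d' (cutb d' u) := by
  refine iSup_le fun s => le_ttv ?_
  exact s.1.res d (le_ht_of_mem _ s.2) d' h u s.2

variable (he : SE e)
include he

/-- If `e s ⊓ m ≠ ⊥` is below `u ∈ TT_d`, then this is decided by some extension. -/
theorem exists_mem {s : TC I} {m : B} (hm : e s ⊓ m ≠ ⊥) {d : W.{u}} {u : W.{u} → Bool}
    (h : e s ⊓ m ≤ ttv e d u) : ∃ r ≤ s, u ∈ r.T d ∧ e r ⊓ m ≠ ⊥ := by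
  obtain ⟨r, h1, t, h2, h3, h4⟩ := he.exists_of_le hm h
  exact ⟨r, h1, mem_of_le h3 h2, h4⟩

theorem exists_th {s : TC I} {m : B} (hm : e s ⊓ m ≠ ⊥) {c : I} {d : W.{u}} {u : W.{u} → Bool}
    (h : e s ⊓ m ≤ thv e c d u) :
    ∃ r ≤ s, (c ∈ r.a ∧ d ≤ r.ht ∧ cutb d (r.f c) = u) ∧ e r ⊓ m ≠ ⊥ := by
  obtain ⟨r, h1, t, h2, h3, h4⟩ := he.exists_of_le hm h
  exact ⟨r, h1, mem_th_of_le h3 h2, h4⟩

theorem inf_ttv_of_not_mem {s : TC I} {d : W.{u}} (hd : d ≤ s.ht) {u : W.{u} → Bool}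
    (h : u ∉ s.T d) : e s ⊓ ttv e d u = ⊥ := by
  by_contra hc
  obtain ⟨r, h1, h2, -⟩ := exists_mem he (s := s) (m := ttv e d u) hc (d := d) (u := u) inf_le_right
  rw [TC.T_eq h1 hd] at h2
  exact h h2

theorem inf_thv_of_ne {s : TC I} {c : I} (hc : c ∈ s.a) {d : W.{u}} (hd : d ≤ s.ht)
    {u : W.{u} → Bool} (h : cutb d (s.f c) ≠ u) : e s ⊓ thv e c d u = ⊥ := by
  by_contra hcon
  obtain ⟨r, h1, h2, -⟩ := exists_th he (s := s) (m := thv e c d u) hcon (c := c) (d := d) (u := u)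
    inf_le_right
  exact h ((cutb_f_of_le h1 hc hd).symm.trans h2.2.2)

theorem thv_disj (c : I) (d : W.{u}) {u v : W.{u} → Bool} (h : u ≠ v) :
    thv e c d u ⊓ thv e c d v = ⊥ := by
  rw [thv, iSup_inf_eq, iSup_eq_bot]
  intro s
  exact inf_thv_of_ne he s.2.1 s.2.2.1 (s.2.2.2.trans_ne h)

omit [CompleteBooleanAlgebra B] he in
theorem exists_in (s : TC I) (c : I) (d : W.{u}) : ∃ r ≤ s, c ∈ r.a ∧ d ≤ r.ht := by
  obtain ⟨r, h1, h2, -⟩ := H77.kext s d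
  by_cases hc : c ∈ r.a
  · exact ⟨r, h1, hc, h2⟩
  · obtain ⟨u, hu⟩ := r.ne
    obtain ⟨t, h3, h4, h5, h6, h7⟩ := H77.kadd r c hc u hu
    exact ⟨t, h3.trans h1, by rw [h6]; exact mem_insert _ _, by rw [h4]; exact h2⟩

theorem iSup_thv (c : I) (d : W.{u}) : ⨆ u, thv e c d u = ⊤ := by
  rw [eq_top_iff, ← he.top]
  refine iSup_le fun s => he.le_of fun r _ => ?_
  obtain ⟨q, h1, h2, h3⟩ := exists_in r c d
  exact ⟨q, h1, (le_thv ⟨h2, h3, rfl⟩).trans (le_iSup (fun u => thv e c d u) _)⟩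

theorem ttv_le_snoc (d : W.{u}) (u : W.{u} → Bool) (i : Bool) :
    ttv e d u ≤ ttv e (Order.succ d) (snoc d u i) := by
  refine iSup_le fun s => he.le_of fun r hr => ?_
  obtain ⟨q, h1, h2, -⟩ := H77.kext r (Order.succ d)
  refine ⟨q, h1, le_ttv (q.suc d ?_ u (mem_of_le (h1.trans hr) s.2) i)⟩
  exact (Order.lt_succ d).trans_le h2

/-- Nodes have extensions of every length. -/
theorem ttv_le_iSup {d d' : W.{u}} (h : d ≤ d') (u : W.{u} → Bool) :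
    ttv e d u ≤ ⨆ v, ⨆ _ : cutb d v = u, ttv e d' v := by
  refine iSup_le fun s => he.le_of fun r hr => ?_
  obtain ⟨q, h1, h2, -⟩ := H77.kext r d'
  obtain ⟨v, hv, hvu⟩ := q.extn d' h2 d h u (mem_of_le (h1.trans hr) s.2)
  exact ⟨q, h1, (le_ttv hv).trans (le_iSup₂ (f := fun v (_ : cutb d v = u) => ttv e d' v) v hvu)⟩

end Pool.Agent.Lib.MP_e6fef2_lc.H27
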