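import Pool.Agent.Lib.MP_e6fef2_lc.H27.Size
import Pool.Agent.Lib.MP_e6fef2_lc.H86.WFacts
import Pool.Agent.Lib.MP_e6fef2_lc.Bridge

/-!
# The forcing axiom fails for `P`
-/

universe u v

open Set Cardinal Filter

open scoped symmDiff

namespace Pool.Agent.Lib.MP_e6fef2_lc.H27

open Pool.Agent.Lib.MP_100a6c_lc
open Pool.Agent.Lib.MP_c5d73d_lc.F (pr)

/-- `ξ` is a limit. -/
def Lim (ξ : W.{u}) : Prop := (∃ a, a < ξ) ∧ ∀ a < ξ, ∃ b, a < b ∧ b < ξ

/-- The dense sets. -/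
def Good (ξ : W.{u}) (q : PC.{u}) : Prop :=
  ξ ≤ q.d ∧ (∃ m ∈ q.e, ξ ≤ m) ∧ (Lim ξ → ξ ∈ q.e ∨ ∃ J ∈ q.I, J.1 < ξ ∧ ξ ≤ J.2)

theorem exists_above (F : Finset W.{u}) : ∃ m, ∀ x ∈ F, x < m := by
  exact H86.W_bddAbove F.countable_toSet

theorem exists_above_lim {ξ : W.{u}} (h : Lim ξ) (F : Finset W.{u}) :
    ∃ a < ξ, ∀ x ∈ F, x < ξ → x < a := by
  classical
  induction F using Finset.induction_on with
  | empty =>
    obtain ⟨a, ha⟩ := h.1
    exact ⟨a, ha, by simp⟩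
  | insert y F hy ih =>
    obtain ⟨a, ha, h1⟩ := ih
    by_cases hyξ : y < ξ
    · obtain ⟨b, hb1, hb2⟩ := h.2 (max a y) (max_lt ha hyξ)
      refine ⟨b, hb2, fun x hx hxξ => ?_⟩
      rcases Finset.mem_insert.1 hx with rfl | hx
      · exact (le_max_right _ _).trans_lt hb1
      · exact (h1 x hx hxξ).trans ((le_max_left _ _).trans_lt hb1)
    · refine ⟨a, ha, fun x hx hxξ => ?_⟩
      rcases Finset.mem_insert.1 hx with rfl | hx
      · exact absurd hxξ hyξ
      · exact h1 x hx hxξ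

/-- Extending the first component of a condition. -/
theorem exists_good (ξ : W.{u}) (p : PC.{u}) : ∃ m : W.{u}, p.d ≤ m ∧ ∀ v : W.{u} → Bool,
    (∀ n, m ≤ n → v n = false) → cutb p.d v = p.t →
      ∃ q ≤ p, Good ξ q ∧ q.d = Order.succ m ∧ q.t = snoc m v true := by
  classical
  obtain ⟨m, hm⟩ := exists_above (insert ξ (insert p.d (p.I.image Prod.snd)))
  have hm1 : ξ < m := hm _ (Finset.mem_insert_self _ _)
  have hm2 : p.d < m := hm _ (Finset.mem_insert_of_mem (Finset.mem_insert_self _ _))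
  have hm3 : ∀ J ∈ p.I, J.2 < m := fun J hJ =>
    hm _ (Finset.mem_insert_of_mem (Finset.mem_insert_of_mem (Finset.mem_image_of_mem _ hJ)))
  refine ⟨m, hm2.le, fun v hv hvp => ?_⟩
  have hvt : ∀ n < p.d, v n = p.t n := fun n hn => by rw [← hvp, cutb_of_lt hn]
  have key : ∀ (I' : Finset (W.{u} × W.{u})), p.I ⊆ I' →
      (∀ J ∈ I', J.2 < m) → (∀ J ∈ I', ∀ n ∈ p.e, ¬ (J.1 ≤ n ∧ n ≤ J.2)) →
      (Lim ξ → ξ ∈ p.e ∨ ∃ J ∈ I', J.1 < ξ ∧ ξ ≤ J.2) →
      ∃ q ≤ p, Good ξ q ∧ q.d = Order.succ m ∧ q.t = snoc m v true := by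
    intro I' h1 h2 h3 h4
    let q : PC.{u} :=
      { d := Order.succ m
        t := snoc m v true
        e := insert m p.e
        I := I'
        low := fun n hn => by
          have hn' : m < n := Order.succ_le_iff.1 hn
          rw [snoc_of_ne hn'.ne']
          exact hv n hn'.le
        e_lt := fun n hn => by
          rcases Finset.mem_insert.1 hn with rfl | hn
          · exact Order.lt_succ _
          · exact (p.e_lt n hn).trans (hm2.trans (Order.lt_succ _))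
        e_t := fun n hn => by
          rcases Finset.mem_insert.1 hn with rfl | hn
          · exact snoc_self
          · have hlt := p.e_lt n hn
            rw [snoc_of_ne (hlt.trans hm2).ne, hvt n hlt]
            exact p.e_t n hn
        avoid := fun J hJ n hn => by
          rcases Finset.mem_insert.1 hn with rfl | hn
          · exact fun h => absurd h.2 (not_le.2 (h2 J hJ))
          · exact h3 J hJ n hn }
    refine ⟨q, ⟨hm2.le.trans (Order.le_succ _), fun n hn => ?_, Finset.subset_insert _ _, h1⟩,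
      ⟨?_, ⟨m, Finset.mem_insert_self _ _, hm1.le⟩, fun hl => ?_⟩, rfl, rfl⟩
    · change snoc m v true n = p.t n
      rw [snoc_of_ne (hn.trans hm2).ne, hvt n hn]
    · exact hm1.le.trans (Order.le_succ _)
    · rcases h4 hl with h | h
      · exact Or.inl (Finset.mem_insert_of_mem h)
      · exact Or.inr h
  by_cases hξ : Lim ξ ∧ ξ ∉ p.e
  · obtain ⟨a, ha, hae⟩ := exists_above_lim hξ.1 p.e
    refine key (insert (a, ξ) p.I) (Finset.subset_insert _ _) ?_ ?_ fun _ =>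
      Or.inr ⟨(a, ξ), Finset.mem_insert_self _ _, ha, le_rfl⟩
    · intro J hJ
      rcases Finset.mem_insert.1 hJ with rfl | hJ
      · exact hm1
      · exact hm3 J hJ
    · intro J hJ n hn
      rcases Finset.mem_insert.1 hJ with rfl | hJ
      · rintro ⟨h5, h6⟩
        rcases h6.lt_or_eq with h7 | h7
        · exact absurd h5 (not_le.2 (hae n hn h7))
        · have h7' : n = ξ := h7
          exact hξ.2 (h7' ▸ hn)
      · exact p.avoid J hJ n hn
  · refine key p.I (Finset.Subset.refl _) hm3 p.avoid fun hl => ?_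
    by_contra hcon
    push Not at hcon
    exact hξ ⟨hl, hcon.1⟩

theorem pv_le_good {I : Type u} {B : Type u} [CompleteBooleanAlgebra B] {e : TC I → B}
    (he : SE e) (ξ : W.{u}) (p : PC.{u}) :
    pv e p ≤ ⨆ q, ⨆ _ : q ≤ p ∧ Good ξ q, pv e q := by
  obtain ⟨m, hm, h1⟩ := exists_good ξ p
  refine iSup_le fun s => he.le_of fun r hr => ?_
  obtain ⟨r', hr', h2, -⟩ := H77.kext r (Order.succ m)
  have h3 : p.t ∈ r'.T p.d := mem_of_le (hr'.trans hr) s.2
  have h4 : m < r'.ht := (Order.lt_succ m).trans_le h2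
  obtain ⟨v, hv, hvp⟩ := r'.extn m h4.le p.d hm _ h3
  obtain ⟨q, hq, hg, hqd, hqt⟩ := h1 v (r'.low m h4.le v hv) hvp
  refine ⟨r', hr', (?_ : e r' ≤ pv e q).trans
    (le_iSup₂ (f := fun q (_ : q ≤ p ∧ Good ξ q) => pv e q) q ⟨hq, hg⟩)⟩
  refine le_ttv ?_
  rw [hqd, hqt]
  exact r'.suc m h4 v hv true

/-- The special strongly generic conditions. -/
def K2n (I : Type u) : Prop := ∀ᶠ N in club, ∀ s : TC I, In N s → ∃ t ≤ s, SG N t ∧
  ∃ δ : W.{u}, (∀ ξ : W.{u}, In N ξ ↔ ξ < δ) ∧ t.ht = Order.succ δ ∧ (∀ x ∈ t.a, In N x) ∧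
    (∀ u ∈ t.T δ, ∃ x ∈ t.a, cutb δ (t.f x) = u) ∧ ∀ x ∈ t.a, t.f x δ = false

/-- NFA. -/
theorem nfa (hcl : ClubStatement.{u}) (hgen : GenStatement.{u}) (hx : XnzStatement.{u})
    {I : Type u} (hS : SGC (TC I)) (hk : K2n I) {B : Type u} [CompleteBooleanAlgebra B]
    (ι : H1.RO (TC I) → B) (hι : IsCE ι) (hPE : PE ι) :
    TNFA fun x : PC.{u} => pv (fun s => ι (pr s)) x := by
  classical
  obtain ⟨c1, c2, c3, c4, c5, c6, c7, c8, c9, c10, c11⟩ := hcl
  set e : TC I → B := fun s => ι (pr s) with hedef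
  have he : SE e := se_of hι
  refine ⟨fun ξ q => if Good ξ q then ⊤ else ⊥, fun ξ p => ?_, fun G hGv hGup hGdir => ?_⟩
  · refine (pv_le_good he ξ p).trans (iSup₂_le fun q hq => ?_)
    refine le_iSup₂_of_le q hq.1 ?_
    change pv e q ≤ pv e q ⊓ (if Good ξ q then (⊤ : B) else ⊥)
    rw [if_pos hq.2, inf_top_eq]
  · by_contra hw
    set w : B := ⨅ ξ, ⨆ x, G x ⊓ (if Good ξ x then (⊤ : B) else ⊥) with hwdef
    have hwG : ∀ ξ, w ≤ ⨆ x : {x // Good ξ x}, G x.1 := by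
      intro ξ
      refine (iInf_le _ ξ).trans (iSup_le fun x => ?_)
      by_cases hx : Good ξ x
      · exact inf_le_left.trans (le_iSup (fun x : {x // Good ξ x} => G x.1) ⟨x, hx⟩)
      · rw [if_neg hx, inf_bot_eq]
        exact bot_le
    -- names
    let E : W.{u} → B := fun m => ⨆ x : {x : PC.{u} // m ∈ x.e}, G x.1
    let φ₁ : W.{u} → W.{u} → B := fun n m => ⨆ _ : n ≤ m, E m
    let bb : W.{u} → B := fun m => ⨆ x : {x : PC.{u} // m < x.d ∧ x.t m = true}, G x.1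
    let xc : I → W.{u} → B := fun c m =>
      ⨆ u : {u : W.{u} → Bool // u m = true}, thv e c (Order.succ m) u.1
    let φ₂ : I → W.{u} → B := fun c m => bb m ∆ xc c m
    have hφ₁ : ∀ n, w ≤ ⨆ m, φ₁ n m := by
      intro n
      refine (hwG n).trans (iSup_le fun x => ?_)
      obtain ⟨m, hm, hnm⟩ := x.2.2.1
      refine le_iSup_of_le m (le_iSup_of_le hnm ?_)
      exact le_iSup (fun x : {x : PC.{u} // m ∈ x.e} => G x.1) ⟨x.1, hm⟩
    -- a condition compatible with `w`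
    obtain ⟨s₀, hs₀⟩ : ∃ s, e s ⊓ w ≠ ⊥ := by
      by_contra hno
      push Not at hno
      apply hw
      rw [← top_inf_eq w, ← he.top, iSup_inf_eq, iSup_eq_bot]
      exact hno
    obtain ⟨w₀⟩ : Nonempty W.{u} := by
      obtain ⟨s₁⟩ : Nonempty (TC I) := ⟨s₀⟩
      exact ⟨s₁.ht⟩
    -- the set `N`
    obtain ⟨N, -, -, hN1, hN2, hN3, hN4, hN5, hN6, hN7, hN8, hN9⟩ := c1
      (fun N => In N w ∧ In N s₀ ∧ In N w₀ ∧ (∀ n : W.{u}, In N n → In N (φ₁ n)) ∧
        (∀ c : I, In N c → In N (φ₂ c)) ∧ (∀ n : W.{u}, In N n → In N (Order.succ n)) ∧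
        (∀ φ : W.{u} → B, In N φ → gen B N ⊓ ⨆ t, φ t ≤ ⨆ (t : W.{u}) (_ : In N t), φ t) ∧
        (∀ b : B, In N b → ∀ s : TC I, In N s → ι (pr s) ⊓ b ≠ ⊥ →
          ∃ t ≤ s, In N t ∧ ∀ s' ≤ t, SG N s' → ι (pr s') ⊓ (gen B N ⊓ b) ≠ ⊥) ∧
        (∀ s : TC I, In N s → ∃ t ≤ s, SG N t ∧
          ∃ δ : W.{u}, (∀ ξ : W.{u}, In N ξ ↔ ξ < δ) ∧ t.ht = Order.succ δ ∧ (∀ x ∈ t.a, In N x) ∧
            (∀ u ∈ t.T δ, ∃ x ∈ t.a, cutb δ (t.f x) = u) ∧ ∀ x ∈ t.a, t.f x δ = false))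
      (by
        filter_upwards [c4 B w, c4 (TC I) s₀, c4 W.{u} w₀, c6 W.{u} (W.{u} → B) φ₁,
          c6 I (W.{u} → B) φ₂, c6 W.{u} W.{u} Order.succ, (hgen B).1 W.{u},
          hx (TC I) hS B ι hι hPE, hk] with N h1 h2 h3 h4 h5 h6 h7 h8 h9
        exact ⟨h1, h2, h3, h4, h5, h6, h7, h8, h9⟩) ∅ Set.countable_empty
    obtain ⟨t, ht1, ht2, ht3⟩ := hN8 w hN1 s₀ hN2 hs₀
    obtain ⟨s, hs1, hs2, δ, hδ, hsht, hsa, hsT, hsf⟩ := hN9 t ht2
    have hb0 : e s ⊓ (gen B N ⊓ w) ≠ ⊥ := ht3 s hs1 hs2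
    have hδs : δ ≤ s.ht := hsht ▸ Order.le_succ δ
    have hlim : Lim δ := by
      refine ⟨⟨w₀, (hδ w₀).1 hN3⟩, fun a ha => ⟨Order.succ a, Order.lt_succ a, ?_⟩⟩
      exact (hδ _).1 (hN6 a ((hδ a).2 ha))
    -- `E` is unbounded in `δ`
    have hE : ∀ n < δ, gen B N ⊓ w ≤ ⨆ m : {m // m < δ ∧ n ≤ m}, E m.1 := by
      intro n hn
      refine (inf_le_inf_left _ (hφ₁ n)).trans ((hN7 _ (hN4 n ((hδ n).2 hn))).trans ?_)
      refine iSup_le fun m => iSup_le fun hm => iSup_le fun hnm => ?_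
      exact le_iSup (fun m : {m // m < δ ∧ n ≤ m} => E m.1) ⟨m, (hδ m).1 hm, hnm⟩
    obtain ⟨x₀, hx₀, hb1⟩ : ∃ x, Good δ x ∧ e s ⊓ (gen B N ⊓ w) ⊓ G x ≠ ⊥ := by
      by_contra hno
      push Not at hno
      apply hb0
      rw [← inf_eq_left.2 (inf_le_right.trans (inf_le_right.trans (hwG δ)) :
        e s ⊓ (gen B N ⊓ w) ≤ _), inf_iSup_eq, iSup_eq_bot]
      exact fun x => hno x.1 x.2
    set b : B := e s ⊓ (gen B N ⊓ w) ⊓ G x₀ with hbdef
    have hbs : b ≤ e s := inf_le_left.trans inf_le_left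
    have hbg : b ≤ gen B N ⊓ w := inf_le_left.trans inf_le_right
    have hbG : b ≤ G x₀ := inf_le_right
    -- two elements of the filter have a common extension
    have hdir : ∀ x, b ⊓ G x ≠ ⊥ → ∃ z, z ≤ x₀ ∧ z ≤ x := by
      intro x hx
      by_contra hno
      push Not at hno
      apply hx
      rw [← le_bot_iff]
      refine ((inf_le_inf_right _ hbG).trans (hGdir x₀ x)).trans (iSup_le fun z => iSup_le ?_)
      rintro ⟨h1, h2⟩
      exact absurd h2 (hno z h1)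
    -- the branch
    have hmem : cutb δ x₀.t ∈ s.T δ := by
      by_contra hno
      apply hb1
      rw [← le_bot_iff, ← inf_ttv_of_not_mem he hδs hno]
      refine le_inf hbs (hbG.trans ((hGv x₀).trans ?_))
      exact ttv_mono hx₀.1 _
    obtain ⟨c, hc, hcδ⟩ := hsT _ hmem
    have hct : ∀ m < δ, s.f c m = x₀.t m := cutb_congr.1 hcδ
    have hδe : δ ∈ x₀.e := by
      rcases hx₀.2.2 hlim with h | ⟨J, hJ, hJ1, hJ2⟩
      · exact h
      · exfalso
        have h1 : ∃ m, (m < δ ∧ J.1 ≤ m) ∧ b ⊓ E m ≠ ⊥ := by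
          by_contra hno
          push Not at hno
          apply hb1
          rw [← inf_eq_left.2 (hbg.trans (hE J.1 hJ1)), inf_iSup_eq, iSup_eq_bot]
          exact fun m => hno m.1 m.2
        obtain ⟨m, ⟨hm1, hm2⟩, hm3⟩ := h1
        have h2 : ∃ x : PC.{u}, m ∈ x.e ∧ b ⊓ G x ≠ ⊥ := by
          by_contra hno
          push Not at hno
          apply hm3
          simp only [E, inf_iSup_eq, iSup_eq_bot]
          exact fun x => hno x.1 x.2
        obtain ⟨x, hx1, hx2⟩ := h2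
        obtain ⟨z, hz1, hz2⟩ := hdir x hx2
        exact z.avoid J (hz1.2.2.2 hJ) m (hz2.2.2.1 hx1) ⟨hm2, hm1.le.trans hJ2⟩
    have hxt : x₀.t δ = true := x₀.e_t δ hδe
    have hxd : δ < x₀.d := x₀.e_lt δ hδe
    have h1 : b ≤ bb δ :=
      hbG.trans (le_iSup (fun x : {x : PC.{u} // δ < x.d ∧ x.t δ = true} => G x.1) ⟨x₀, hxd, hxt⟩)
    have h2 : ∀ m, m ≤ δ → s.f c m = false → e s ⊓ xc c m = ⊥ := by
      intro m hm hsm
      simp only [xc, inf_iSup_eq, iSup_eq_bot]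
      intro u
      refine inf_thv_of_ne he hc ?_ ?_
      · rw [hsht]
        exact Order.succ_le_succ hm
      · intro h
        have := u.2
        rw [← h, cutb_of_lt (Order.lt_succ m), hsm] at this
        exact absurd this (by simp)
    have h3 : b ≤ ⨆ m, φ₂ c m := by
      refine le_iSup_of_le δ ?_
      have h4 : b ⊓ xc c δ = ⊥ := by
        rw [← le_bot_iff, ← h2 δ le_rfl (hsf c hc)]
        exact inf_le_inf_right _ hbs
      have h5 : b ≤ (xc c δ)ᶜ := le_compl_iff_disjoint_right.2 (disjoint_iff.2 h4)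
      change b ≤ bb δ ∆ xc c δ
      rw [symmDiff_def]
      exact le_sup_of_le_left (by rw [_root_.sdiff_eq]; exact le_inf h1 h5)
    have h4 : b ≤ ⨆ (m : W.{u}) (_ : In N m), φ₂ c m :=
      (le_inf (hbg.trans inf_le_left) h3).trans (hN7 _ (hN5 c (hsa c hc)))
    apply hb1
    rw [← inf_eq_left.2 h4, inf_iSup_eq, iSup_eq_bot]
    intro m
    rw [inf_iSup_eq, iSup_eq_bot]
    intro hm
    have hmδ : m < δ := (hδ m).1 hm
    have hsm := hct m hmδ
    change b ⊓ (bb m ∆ xc c m) = ⊥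
    by_cases hxm : x₀.t m = true
    · have h5 : b ≤ bb m := hbG.trans (le_iSup
        (fun x : {x : PC.{u} // m < x.d ∧ x.t m = true} => G x.1) ⟨x₀, hmδ.trans_le hx₀.1, hxm⟩)
      have h6 : b ≤ xc c m := by
        refine hbs.trans ((le_thv (e := e) (c := c) (d := Order.succ m)
          (u := cutb (Order.succ m) (s.f c)) ⟨hc, ?_, rfl⟩).trans
          (le_iSup (fun u : {u : W.{u} → Bool // u m = true} => thv e c (Order.succ m) u.1)
            ⟨cutb (Order.succ m) (s.f c), ?_⟩))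
        · rw [hsht]
          exact Order.succ_le_succ hmδ.le
        · rw [cutb_of_lt (Order.lt_succ m), hsm, hxm]
      rw [← le_bot_iff]
      have h7 : b ⊓ (bb m ∆ xc c m) ≤ (bb m ⊓ xc c m) ⊓ (bb m ∆ xc c m) :=
        inf_le_inf_right _ (le_inf h5 h6)
      refine h7.trans (le_of_eq ?_)
      rw [inf_comm]
      exact disjoint_iff.1 (disjoint_symmDiff_inf _ _)
    · have hxm' : x₀.t m = false := by simpa using hxm
      have h5 : b ⊓ bb m = ⊥ := by
        simp only [bb, inf_iSup_eq, iSup_eq_bot]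
        intro x
        by_contra hno
        obtain ⟨z, hz1, hz2⟩ := hdir x.1 hno
        have h6 := hz1.2.1 m (hmδ.trans_le hx₀.1)
        have h7 := hz2.2.1 m x.2.1
        rw [h6, hxm', x.2.2] at h7
        exact absurd h7 (by simp)
      have h6 : b ⊓ xc c m = ⊥ := by
        rw [← le_bot_iff, ← h2 m hmδ.le (hsm.trans hxm')]
        exact inf_le_inf_right _ hbs
      rw [← le_bot_iff]
      have h7 : b ⊓ (bb m ∆ xc c m) ≤ b ⊓ (bb m ⊔ xc c m) :=
        inf_le_inf_left _ symmDiff_le_sup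
      refine h7.trans ?_
      rw [inf_sup_left, h5, h6, bot_sup_eq]

end Pool.Agent.Lib.MP_e6fef2_lc.H27
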