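import Pool.Agent.Lib.MP_e6fef2_lc.TreeDefs
import Pool.Agent.Lib.MP_e6fef2_lc.Chain
import Pool.Agent.Lib.MP_c5d73d_lc.F.H62.Roapi

/-!
# Dense embeddings of a forcing into a complete Boolean algebra; values of the names of the
generic tree and of its branches
-/

universe u v

open Set Cardinal

namespace Pool.Agent.Lib.MP_e6fef2_lc.H27

open Pool.Agent.Lib.MP_100a6c_lc
open Pool.Agent.Lib.MP_c5d73d_lc.F (pr)

/-- `e s` is the Boolean value of `s ∈ G`. -/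
structure SE {S : Type u} [Preorder S] {B : Type v} [CompleteBooleanAlgebra B] (e : S → B) :
    Prop where
  ne : ∀ s, e s ≠ ⊥
  mono : ∀ s t, s ≤ t → e s ≤ e t
  disj : ∀ s t, (∀ r ≤ s, ¬ r ≤ t) → e s ⊓ e t = ⊥
  cov : ∀ (s : S) (A : Set S), (∀ s' ≤ s, ∃ a ∈ A, ∃ s'' ≤ s', s'' ≤ a) → e s ≤ ⨆ a ∈ A, e a
  top : ⨆ s, e s = ⊤

theorem ne_bot_mono {B : Type v} [CompleteBooleanAlgebra B] {a b : B} (ha : a ≠ ⊥) (h : a ≤ b) :
    b ≠ ⊥ := fun hb => ha (le_bot_iff.1 (hb ▸ h))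

namespace SE

variable {S : Type u} [Preorder S] {B : Type v} [CompleteBooleanAlgebra B] {e : S → B}

theorem exists_of_ne (h : SE e) {s : S} {m : B} (hm : e s ⊓ m ≠ ⊥) (A : Set S)
    (hA : ∀ s' ≤ s, ∃ a ∈ A, ∃ s'' ≤ s', s'' ≤ a) : ∃ a ∈ A, ∃ s' ≤ s, s' ≤ a ∧ e s' ⊓ m ≠ ⊥ := by
  by_contra hcon
  push Not at hcon
  apply hm
  have h1 : e s ≤ ⨆ a ∈ {s' | s' ≤ s ∧ ∃ a ∈ A, s' ≤ a}, e a := by
    refine h.cov s _ fun s' hs' => ?_
    obtain ⟨a, ha, s'', h1, h2⟩ := hA s' hs'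
    exact ⟨s'', ⟨h1.trans hs', a, ha, h2⟩, s'', h1, le_rfl⟩
  rw [← le_bot_iff]
  calc e s ⊓ m ≤ (⨆ a ∈ {s' | s' ≤ s ∧ ∃ a ∈ A, s' ≤ a}, e a) ⊓ m := inf_le_inf_right _ h1
    _ = ⨆ a ∈ {s' | s' ≤ s ∧ ∃ a ∈ A, s' ≤ a}, e a ⊓ m := iSup₂_inf_eq _
    _ ≤ ⊥ := iSup₂_le fun a ha => by
      obtain ⟨a', ha', h2⟩ := ha.2
      exact le_of_eq (hcon a' ha' a ha.1 h2)

/-- Density. -/
theorem dense (h : SE e) {s : S} {m : B} (hm : e s ⊓ m ≠ ⊥) (p : S → Prop)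
    (hp : ∀ s' ≤ s, ∃ s'' ≤ s', p s'') : ∃ s' ≤ s, p s' ∧ e s' ⊓ m ≠ ⊥ := by
  obtain ⟨a, ha, s', h1, h2, h3⟩ := h.exists_of_ne hm {s' | s' ≤ s ∧ p s'} fun s' hs' => by
    obtain ⟨s'', h1, h2⟩ := hp s' hs'
    exact ⟨s'', ⟨h1.trans hs', h2⟩, s'', h1, le_rfl⟩
  exact ⟨a, ha.1, ha.2, ne_bot_mono h3 (inf_le_inf_right m (h.mono _ _ h2))⟩

theorem exists_common (h : SE e) {s t : S} {m : B} (hm : e s ⊓ (e t ⊓ m) ≠ ⊥) :
    ∃ r ≤ s, r ≤ t ∧ e r ⊓ m ≠ ⊥ := by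
  by_contra hcon
  push Not at hcon
  have key : e s ⊓ (e t ⊓ m) ≤ ⊥ := by
    have h1 : e s ≤ ⨆ a ∈ {r | r ≤ s ∧ (r ≤ t ∨ ∀ q ≤ r, ¬ q ≤ t)}, e a := by
      refine h.cov s _ fun s' hs' => ?_
      by_cases h2 : ∃ q ≤ s', q ≤ t
      · obtain ⟨q, h3, h4⟩ := h2
        exact ⟨q, ⟨h3.trans hs', Or.inl h4⟩, q, h3, le_rfl⟩
      · push Not at h2
        exact ⟨s', ⟨hs', Or.inr h2⟩, s', le_rfl, le_rfl⟩
    refine (inf_le_inf_right _ h1).trans ?_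
    rw [iSup₂_inf_eq]
    refine iSup₂_le fun r hr => ?_
    rcases hr.2 with h2 | h2
    · calc e r ⊓ (e t ⊓ m) ≤ e r ⊓ m := inf_le_inf_left _ inf_le_right
        _ = ⊥ := hcon r hr.1 h2
        _ ≤ ⊥ := le_rfl
    · rw [← inf_assoc, h.disj r t h2, bot_inf_eq]
  exact hm (le_bot_iff.1 key)

/-- If `e s ⊓ m ≠ ⊥` is below a sup of values `e t`, then some common extension of `s` and such a
`t` works. -/
theorem exists_of_le (h : SE e) {s : S} {m : B} (hm : e s ⊓ m ≠ ⊥) {p : S → Prop}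
    (hp : e s ⊓ m ≤ ⨆ t : {t // p t}, e t.1) : ∃ r ≤ s, ∃ t, p t ∧ r ≤ t ∧ e r ⊓ m ≠ ⊥ := by
  by_contra hcon
  push Not at hcon
  apply hm
  rw [← inf_eq_left.2 hp, inf_iSup_eq, ← le_bot_iff]
  refine iSup_le fun t => ?_
  by_contra h1
  have h2 : e s ⊓ (e t.1 ⊓ m) ≠ ⊥ := by
    intro h3
    apply h1
    rw [← h3]
    exact le_inf (inf_le_left.trans inf_le_left) (le_inf inf_le_right (inf_le_left.trans inf_le_right))
  obtain ⟨r, hr, hrt, hrm⟩ := h.exists_common h2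
  exact hrm (hcon r hr t.1 t.2 hrt)

theorem le_of (h : SE e) {s : S} {b : B} (hb : ∀ r ≤ s, ∃ q ≤ r, e q ≤ b) : e s ≤ b := by
  have h1 : e s ≤ ⨆ a ∈ {r | e r ≤ b}, e a := h.cov s _ fun r hr => by
    obtain ⟨q, h1, h2⟩ := hb r hr
    exact ⟨q, h2, q, h1, le_rfl⟩
  exact h1.trans (iSup₂_le fun a ha => ha)

end SE

/-- The embedding of a forcing given by a complete embedding of its regular open algebra. -/
theorem se_of {S : Type u} [Preorder S] {B : Type u} [CompleteBooleanAlgebra B]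
    {ι : H1.RO S → B} (h : IsCE ι) : SE fun s => ι (pr s) := by
  have hbot : ι ⊥ = ⊥ := by
    have := h.sSup ∅
    simpa using this
  have hinj : ∀ b, ι b = ⊥ → b = ⊥ := fun b hb => h.inj (hb.trans hbot.symm)
  have htop : ι ⊤ = ⊤ := by
    have := h.compl ⊥
    rw [hbot] at this
    simpa using this
  have hsup : ∀ a b : H1.RO S, ι (a ⊔ b) = ι a ⊔ ι b := by
    intro a b
    have := h.sSup {a, b}
    rw [sSup_pair] at this
    rw [this, iSup_pair]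
  have hmono : ∀ a b : H1.RO S, a ≤ b → ι a ≤ ι b := by
    intro a b hab
    have : ι b = ι a ⊔ ι b := by rw [← hsup, sup_eq_right.2 hab]
    rw [this]
    exact le_sup_left
  have hinf : ∀ a b : H1.RO S, ι (a ⊓ b) = ι a ⊓ ι b := by
    intro a b
    have h1 : a ⊓ b = (aᶜ ⊔ bᶜ)ᶜ := by
      rw [compl_sup, compl_compl, compl_compl]
      rfl
    rw [h1, h.compl, hsup, h.compl, h.compl]
    simp
  refine ⟨fun s hs => ?_, fun s t hst => ?_, fun s t hst => ?_, fun s A hA => ?_, ?_⟩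
  · exact Pool.Agent.Lib.MP_c5d73d_lc.F.H62.pr_ne_bot s (hinj _ hs)
  · exact hmono _ _ (Pool.Agent.Lib.MP_c5d73d_lc.F.H62.pr_mono hst)
  · change ι (pr s) ⊓ ι (pr t) = ⊥
    rw [← hinf]
    have : (pr s ⊓ pr t : H1.RO S) = ⊥ := by
      rw [← le_bot_iff, Pool.Agent.Lib.MP_c5d73d_lc.F.H62.le_iff]
      intro p hp
      exfalso
      have h1 : (pr p : H1.RO S) ≤ pr s ⊓ pr t :=
        (Pool.Agent.Lib.MP_c5d73d_lc.F.H62.pr_le_iff p _).2 hp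
      have h2 := (Pool.Agent.Lib.MP_c5d73d_lc.F.H62.mem_pr_iff s p).1
        ((Pool.Agent.Lib.MP_c5d73d_lc.F.H62.pr_le_iff p _).1 (h1.trans inf_le_left))
      obtain ⟨q, hq, hqs⟩ := h2 p le_rfl
      have h3 := (Pool.Agent.Lib.MP_c5d73d_lc.F.H62.mem_pr_iff t p).1
        ((Pool.Agent.Lib.MP_c5d73d_lc.F.H62.pr_le_iff p _).1 (h1.trans inf_le_right))
      obtain ⟨r, hr, hrt⟩ := h3 q hq
      exact hst r (hr.trans hqs) hrt
    rw [this, hbot]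
  · have h1 : (pr s : H1.RO S) ≤ sSup (pr '' A) := by
      rw [sSup_image]
      rw [Pool.Agent.Lib.MP_c5d73d_lc.F.H62.iSup_pr_eq_gen]
      rw [Pool.Agent.Lib.MP_c5d73d_lc.F.H62.pr_le_iff]
      rw [Pool.Agent.Lib.MP_c5d73d_lc.F.H62.mem_gen]
      intro p' hp'
      obtain ⟨a, ha, s'', h1, h2⟩ := hA p' hp'
      exact ⟨s'', h1, a, ha, h2⟩
    refine (hmono _ _ h1).trans ?_
    rw [h.sSup]
    refine iSup₂_le ?_
    rintro _ ⟨a, ha, rfl⟩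
    exact le_iSup₂_of_le a ha le_rfl
  · have h1 : (⊤ : H1.RO S) = sSup (range pr) := by
      refine le_antisymm ?_ le_top
      rw [Pool.Agent.Lib.MP_c5d73d_lc.F.H62.le_iff]
      intro p _
      rw [← Pool.Agent.Lib.MP_c5d73d_lc.F.H62.pr_le_iff]
      exact le_sSup ⟨p, rfl⟩
    rw [← htop, h1, h.sSup]
    rw [iSup_range]

end Pool.Agent.Lib.MP_e6fef2_lc.H27
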