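import Pool.Agent.Lib.MP_e6fef2_lc.H27.Claim
import Pool.Agent.Lib.MP_e6fef2_lc.V.TDefs

/-!
# `P` is nonempty and has size `ℵ₁`; branches through a given node
-/

universe u v

open Set Cardinal

namespace Pool.Agent.Lib.MP_e6fef2_lc.H27

/-- NEP. -/
theorem iSup_pv {I : Type u} {B : Type v} [CompleteBooleanAlgebra B] {e : TC I → B} (he : SE e) :
    ⨆ x, pv e x = ⊤ := by
  rw [eq_top_iff, ← he.top]
  refine iSup_le fun s => ?_
  obtain ⟨v, hv⟩ := s.ne
  let x : PC.{u} :=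
    { d := s.ht
      t := v
      e := ∅
      I := ∅
      low := s.low _ le_rfl _ hv
      e_lt := by simp
      e_t := by simp
      avoid := by simp }
  exact (le_ttv (e := e) (s := s) hv : e s ≤ pv e x).trans (le_iSup (fun x => pv e x) x)

/-- SPR: through every node there are branches with indices outside of a small set. -/
theorem spr {κ : Cardinal.{u}} {I : Type u} [LinearOrder I] (hI : Idx κ I)
    {B : Type v} [CompleteBooleanAlgebra B] {e : TC I → B} (he : SE e) {C : Set I} (hC : #C < κ)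
    (d : W.{u}) (u : W.{u} → Bool) : ttv e d u ≤ ⨆ c, ⨆ _ : c ∉ C, thv e c d u := by
  refine iSup_le fun s => he.le_of fun r hr => ?_
  have hu : u ∈ r.T d := mem_of_le hr s.2
  obtain ⟨v, hv, hvu⟩ := r.extn _ le_rfl _ (le_ht_of_mem _ hu) _ hu
  obtain ⟨c, hc, hcr⟩ := exists_not_mem hI hC r.a_ctbl
  obtain ⟨q, h1, h2, h3, h4, h5⟩ := H77.kadd r c hcr v hv
  refine ⟨q, h1, (le_thv (c := c) (d := d) (u := u) ⟨?_, ?_, ?_⟩).trans
    (le_iSup₂ (f := fun c (_ : c ∉ C) => thv e c d u) c hc)⟩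
  · rw [h4]
    exact mem_insert _ _
  · rw [h2]
    exact le_ht_of_mem _ hu
  · rw [h5]
    exact hvu

/-- An enumeration of a countable set of nodes. -/
noncomputable def enn (A : Set (W.{u} → Bool)) (n : ℕ) : W.{u} → Bool := by
  classical exact if h : ∃ g : ℕ → W.{u} → Bool, range g = A then h.choose n else fun _ => false

theorem exists_enn {A : Set (W.{u} → Bool)} (hA : A.Countable) {u : W.{u} → Bool} (hu : u ∈ A) :
    ∃ n, enn A n = u := by
  have h : ∃ g : ℕ → W.{u} → Bool, range g = A := by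
    obtain ⟨g, hg⟩ := hA.exists_eq_range ⟨u, hu⟩
    exact ⟨g, hg.symm⟩
  have h1 := h.choose_spec
  rw [← h1] at hu
  obtain ⟨n, hn⟩ := hu
  refine ⟨n, ?_⟩
  rw [enn, dif_pos h]
  exact hn

/-- TSIZE. -/
theorem tsize {I : Type u} {B : Type u} [CompleteBooleanAlgebra B] {e : TC I → B} (he : SE e) :
    TSize fun x : PC.{u} => pv e x := by
  classical
  let K : Type u := W.{u} × ULift.{u} ℕ × Finset W.{u} × Finset (W.{u} × W.{u})
  have hW0 : ℵ₀ ≤ #W.{u} := by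
    rw [Cardinal.mk_ord_toType]
    exact Cardinal.aleph0_le_aleph 1
  have : Infinite W.{u} := Cardinal.infinite_iff.2 hW0
  have hK : #K ≤ #W.{u} := by
    simp only [K, Cardinal.mk_prod, Cardinal.lift_id, Cardinal.mk_finset_of_infinite]
    have h1 : #W.{u} * #W.{u} = #W.{u} := Cardinal.mul_eq_self hW0
    rw [h1, h1, Cardinal.mk_uLift, Cardinal.mk_nat, Cardinal.lift_aleph0,
      Cardinal.mul_eq_right hW0 hW0 Cardinal.aleph0_ne_zero, h1]
  obtain ⟨g⟩ := Cardinal.le_def _ _ |>.1 hK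
  obtain ⟨d₀⟩ : Nonempty W.{u} := inferInstance
  have hKne : Nonempty K := ⟨(d₀, ⟨0⟩, ∅, ∅)⟩
  let k : W.{u} → K := Function.invFun g
  have hk : Function.Surjective k := Function.invFun_surjective g.injective
  let en : W.{u} → ℕ → (W.{u} → Bool) → B := fun d n u =>
    ⨆ s : {s : TC I // d ≤ s.ht ∧ enn (s.T d) n = u}, e s.1
  have hen : ∀ d n u u', u ≠ u' → en d n u ⊓ en d n u' = ⊥ := by
    intro d n u u' huu
    simp only [en, iSup_inf_eq, inf_iSup_eq, iSup_eq_bot]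
    intro s t
    apply he.disj
    intro r hr hr'
    apply huu
    rw [← s.2.2, ← t.2.2, ← TC.T_eq hr t.2.1, ← TC.T_eq hr' s.2.1]
  refine ⟨fun ξ x => if x.d = (k ξ).1 ∧ x.e = (k ξ).2.2.1 ∧ x.I = (k ξ).2.2.2 then
    en x.d (k ξ).2.1.down x.t else ⊥, fun ξ x y hxy => ?_, fun x => ?_⟩
  · change (if x.d = (k ξ).1 ∧ x.e = (k ξ).2.2.1 ∧ x.I = (k ξ).2.2.2 then
      en x.d (k ξ).2.1.down x.t else ⊥) ⊓ (if y.d = (k ξ).1 ∧ y.e = (k ξ).2.2.1 ∧
      y.I = (k ξ).2.2.2 then en y.d (k ξ).2.1.down y.t else ⊥) = ⊥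
    by_cases h1 : x.d = (k ξ).1 ∧ x.e = (k ξ).2.2.1 ∧ x.I = (k ξ).2.2.2
    · by_cases h2 : y.d = (k ξ).1 ∧ y.e = (k ξ).2.2.1 ∧ y.I = (k ξ).2.2.2
      · rw [if_pos h1, if_pos h2, h1.1, h2.1]
        apply hen
        intro ht
        exact hxy (PC.ext (h1.1.trans h2.1.symm) ht (h1.2.1.trans h2.2.1.symm)
          (h1.2.2.trans h2.2.2.symm))
      · rw [if_neg h2, inf_bot_eq]
    · rw [if_neg h1, bot_inf_eq]
  · change ttv e x.d x.t ≤ _
    refine iSup_le fun s => ?_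
    have hd := le_ht_of_mem _ s.2
    obtain ⟨n, hn⟩ := exists_enn (s.1.ctbl _ hd) s.2
    obtain ⟨ξ, hξ⟩ := hk (x.d, ⟨n⟩, x.e, x.I)
    refine le_trans ?_ (le_iSup _ ξ)
    change e s.1 ≤ if x.d = (k ξ).1 ∧ x.e = (k ξ).2.2.1 ∧ x.I = (k ξ).2.2.2 then
      en x.d (k ξ).2.1.down x.t else ⊥
    rw [hξ]
    simp only [and_self, if_true]
    exact le_iSup (fun s : {s : TC I // x.d ≤ s.ht ∧ enn (s.T x.d) n = x.t} => e s.1) ⟨s.1, hd, hn⟩

end Pool.Agent.Lib.MP_e6fef2_lc.H27
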